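import Pool.Agent.helper24_UT.Ch16
import Pool.Agent.Helper481.Real

set_option autoImplicit false

/-!
# Andrica's inequality in arithmetic progressions, on average over all moduli up to `√X exp (- B (log log X) ^ 2)`

Andrica's conjecture is `√p' - √p < 1` for consecutive primes `p < p'`. Here the consecutive primes of all the arithmetic progressions
are considered. For fixed `A`, `C` let `δ = 1 / (log X) ^ C`, and let `X` be large. For all `Q ≤ √X exp (- B (log log X) ^ 2)` the number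
of the pairs `(q, p)`, `q ≤ Q`, `p ≤ X` a prime which does not divide `q`, such that the inequality `√s - √p < δ` fails for the next
prime `s ≡ p (mod q)`, is at most `Q ^ 2 √X / (log X) ^ A`. (The trivial bound for `δ = 1` is of the order of `Q ^ 2 √X`, since the
numbers `√p` of the primes in question in a fixed class are separated by `δ`. For `q > √X` the mean difference of the primes in a
class modulo `q` is larger than `√X`, so that the inequality with `δ = 1` is false in general: the range of `q` is almost best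
possible.)

Proof. For large `p` a failure gives one of the windows `(j K, j K + K]`, `K = √X / (log X) ^ D`, without primes in the class of `p`
modulo `q`. By `Pool.Agent.helper24_UT.Ch.t_R28` (Mikawa's method, large sieve) the mean square of the error terms over all classes to all
moduli `q ≤ Q` is small for almost all windows, which leaves few such pairs (window, class).
-/

namespace Pool.Agent.Results.MP_82fd4a_nt.AverageOverProgressions

open Finset Pool.Agent.Helper481 Pool.Agent.helper24_UT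

/-- all the primes `s > p` in the residue class of `p` modulo `q` satisfy `√s - √p ≥ δ` -/
def Fails (δ : ℝ) (q p : ℕ) : Prop :=
  ∀ s : ℕ, s.Prime → s % q = p % q → p < s → δ ≤ Real.sqrt s - Real.sqrt p

open Classical in
/-- the number of the pairs `(q, p)` with `1 ≤ q ≤ Q`, `p ≤ X` a prime not dividing `q`, such that all the primes `s > p` in the class of
`p` modulo `q` satisfy `√s - √p ≥ δ` -/
noncomputable def exceptions (δ : ℝ) (Q X : ℕ) : ℕ :=
  ((Icc 1 Q ×ˢ Icc 1 X).filter (fun v => v.2.Prime ∧ ¬ v.2 ∣ v.1 ∧ Fails δ v.1 v.2)).card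

/-- a failure at `p` leaves an interval of length `2 K` without primes in the class -/
lemma near {δ W : ℝ} {q p s K : ℕ} (hδ : 0 < δ) (hW : W < Real.sqrt p) (hK : (K : ℝ) ≤ δ * W) (hf : Fails δ q p)
    (hs : s.Prime) (hsq : s % q = p % q) (hps : p < s) : p + 2 * K < s := by
  by_contra hcon
  have h1 : (s : ℝ) ≤ p + 2 * K := by exact_mod_cast not_lt.1 hcon
  have h2 := hf s hs hsq hps
  have h3 : Real.sqrt s < Real.sqrt p + δ := by
    rw [Real.sqrt_lt' (by positivity)]
    have h4 := Real.sq_sqrt (Nat.cast_nonneg (α := ℝ) p)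
    nlinarith
  linarith

/-- failures in one class are separated -/
lemma separated {δ : ℝ} {q p s : ℕ} (hδ : 0 < δ) (hf : Fails δ q p) (hs : s.Prime) (hsq : s % q = p % q) (hps : p < s) :
    ⌊Real.sqrt p / δ⌋₊ < ⌊Real.sqrt s / δ⌋₊ := by
  have h2 := hf s hs hsq hps
  have h3 : Real.sqrt p / δ + 1 ≤ Real.sqrt s / δ := by
    rw [← div_self hδ.ne', ← add_div]
    exact div_le_div_of_nonneg_right (by linarith) hδ.le
  have h4 := Nat.floor_le_floor h3
  rw [Nat.floor_add_one (by positivity)] at h4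
  omega

/-- lower bound of the expected number in a window -/
lemma logSum_ge {u K : ℕ} {l : ℝ} (hu : 1 ≤ u) (hl : Real.log ((u + K : ℕ) : ℝ) ≤ l) : K / l ≤ Thin.logSum u K := by
  unfold Thin.logSum
  have hcard : ((Ioc u (u + K)).card : ℝ) = K := by rw [Nat.card_Ioc]; congr 1; omega
  calc (K : ℝ) / l = ∑ _m ∈ Ioc u (u + K), 1 / l := by rw [sum_const, nsmul_eq_mul, hcard, mul_one_div]
    _ ≤ _ := by
      apply sum_le_sum
      intro m hm
      rw [mem_Ioc] at hm
      have h1 : (1 : ℝ) < m := by exact_mod_cast (by omega : 1 < m)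
      have h2 : (m : ℝ) ≤ ((u + K : ℕ) : ℝ) := by exact_mod_cast hm.2
      apply one_div_le_one_div_of_le (Real.log_pos h1)
      exact (Real.log_le_log (by linarith) h2).trans hl

/-- one modulus: the classes without primes -/
lemma one_modulus {u K Q q : ℕ} (hq : q ∈ Icc 1 Q) :
    (∑ r ∈ range Q, if r < q ∧ r.Coprime q ∧ Thin.count q r u K = 0 then (1 : ℝ) else 0) * (Thin.logSum u K / Q) ^ 2 ≤
      ∑ r ∈ (range q).filter (fun r => r.Coprime q),
        ((Thin.count q r u K : ℝ) - Thin.logSum u K / Nat.totient q) ^ 2 := by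
  rw [mem_Icc] at hq
  have hφ : 0 < Nat.totient q := Nat.totient_pos.2 (by omega)
  have hφQ : (Nat.totient q : ℝ) ≤ Q := by exact_mod_cast (Nat.totient_le q).trans hq.2
  have hφ0 : (0 : ℝ) < Nat.totient q := by exact_mod_cast hφ
  have hlog : 0 ≤ Thin.logSum u K := by
    unfold Thin.logSum
    apply sum_nonneg
    intro m _
    have := Real.log_natCast_nonneg m
    positivity
  rw [← sum_filter, sum_const, nsmul_eq_mul, mul_one]
  have hsub : (range Q).filter (fun r => r < q ∧ r.Coprime q ∧ Thin.count q r u K = 0) ⊆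
      (range q).filter (fun r => r.Coprime q) := by
    intro r hr
    rw [mem_filter] at hr
    rw [mem_filter, mem_range]
    exact ⟨hr.2.1, hr.2.2.1⟩
  calc (((range Q).filter (fun r => r < q ∧ r.Coprime q ∧ Thin.count q r u K = 0)).card : ℝ) * (Thin.logSum u K / Q) ^ 2 =
        ∑ _r ∈ (range Q).filter (fun r => r < q ∧ r.Coprime q ∧ Thin.count q r u K = 0), (Thin.logSum u K / Q) ^ 2 := by
        rw [sum_const, nsmul_eq_mul]
    _ ≤ ∑ r ∈ (range Q).filter (fun r => r < q ∧ r.Coprime q ∧ Thin.count q r u K = 0),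
        ((Thin.count q r u K : ℝ) - Thin.logSum u K / Nat.totient q) ^ 2 := by
        apply sum_le_sum
        intro r hr
        rw [mem_filter] at hr
        rw [hr.2.2.2, Nat.cast_zero, zero_sub, neg_sq]
        apply pow_le_pow_left₀ (by positivity)
        exact div_le_div_of_nonneg_left hlog hφ0 hφQ
    _ ≤ _ := sum_le_sum_of_subset_of_nonneg hsub fun _ _ _ => sq_nonneg _

/-- the conditions for `X` -/
lemma large (E B : ℕ) : ∃ X₀ : ℕ, ∀ X : ℕ, X₀ ≤ X →
    64 ≤ Real.log X ∧ 4 * Real.log X ^ E ≤ Real.sqrt X ∧ (2 * X : ℝ) ^ (5 / 12 : ℝ) ≤ Real.sqrt X / (2 * Real.log X ^ E) ∧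
      Real.exp (-(((4 * B + E + 1 : ℕ) : ℝ) * Real.log (Real.log X) ^ 2)) ≤
        Real.exp (-(B * Real.log (Real.log ((2 * X : ℕ) : ℝ)) ^ 2)) / (2 * Real.log X ^ E) := by
  have hlog : Filter.Tendsto (fun N : ℕ => Real.log (N : ℝ)) Filter.atTop Filter.atTop :=
    Real.tendsto_log_atTop.comp tendsto_natCast_atTop_atTop
  have hcast := tendsto_natCast_atTop_atTop (R := ℝ)
  have e1 : ∀ᶠ N : ℕ in Filter.atTop, 64 ≤ Real.log N := hlog.eventually_ge_atTop _
  have e3 : ∀ᶠ x : ℝ in Filter.atTop, ‖Real.log x ^ E‖ ≤ 1 / 16 * ‖x ^ (1 / 12 : ℝ)‖ := by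
    have := isLittleO_log_rpow_rpow_atTop (s := 1 / 12) (E : ℝ) (by norm_num)
    have h2 := this.bound (show (0 : ℝ) < 1 / 16 by norm_num)
    filter_upwards [h2] with x hx
    rw [Real.rpow_natCast] at hx
    exact hx
  obtain ⟨N₁, hN₁⟩ := Filter.eventually_atTop.1 (e1.and (hcast.eventually e3))
  refine ⟨N₁, fun X hX => ?_⟩
  obtain ⟨h1, h3⟩ := hN₁ X hX
  have hX0 : (0 : ℝ) < X := by
    rcases Nat.eq_zero_or_pos X with h | h
    · subst h
      norm_num at h1
    · exact_mod_cast h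
  have hXone : (1 : ℝ) ≤ X := by
    have : 0 < X := by exact_mod_cast hX0
    exact_mod_cast this
  rw [Real.norm_eq_abs, Real.norm_eq_abs, abs_of_nonneg (by positivity), abs_of_nonneg (by positivity)] at h3
  set L := Real.log X with hL
  have hL0 : 0 < L := by linarith
  have h12 : (X : ℝ) ^ (1 / 12 : ℝ) ≤ Real.sqrt X := by
    rw [Real.sqrt_eq_rpow]
    exact Real.rpow_le_rpow_of_exponent_le hXone (by norm_num)
  have hx12 : 0 ≤ (X : ℝ) ^ (1 / 12 : ℝ) := by positivity
  refine ⟨h1, by linarith, ?_, ?_⟩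
  · rw [le_div_iff₀ (by positivity)]
    have h4 : (2 * X : ℝ) ^ (5 / 12 : ℝ) ≤ 2 * (X : ℝ) ^ (5 / 12 : ℝ) := by
      rw [Real.mul_rpow (by norm_num) hX0.le]
      apply mul_le_mul_of_nonneg_right _ (by positivity)
      calc (2 : ℝ) ^ (5 / 12 : ℝ) ≤ 2 ^ (1 : ℝ) := Real.rpow_le_rpow_of_exponent_le (by norm_num) (by norm_num)
        _ = 2 := Real.rpow_one _
    calc (2 * X : ℝ) ^ (5 / 12 : ℝ) * (2 * L ^ E) ≤ (2 * (X : ℝ) ^ (5 / 12 : ℝ)) * (2 * (1 / 16 * (X : ℝ) ^ (1 / 12 : ℝ))) := by
          apply mul_le_mul h4 _ (by positivity) (by positivity)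
          exact mul_le_mul_of_nonneg_left h3 (by norm_num)
      _ = 1 / 4 * ((X : ℝ) ^ (5 / 12 : ℝ) * (X : ℝ) ^ (1 / 12 : ℝ)) := by ring
      _ = 1 / 4 * (X : ℝ) ^ (1 / 2 : ℝ) := by
          rw [← Real.rpow_add hX0]
          norm_num
      _ ≤ Real.sqrt X := by
          rw [Real.sqrt_eq_rpow]
          have : 0 ≤ (X : ℝ) ^ (1 / 2 : ℝ) := by positivity
          linarith
  · rw [le_div_iff₀ (by positivity)]
    have h6 : Real.log 2 ≤ 1 := by linarith [Real.log_two_lt_d9]
    have h6' : 0 < Real.log 2 := Real.log_pos (by norm_num)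
    have e : Real.log ((2 * X : ℕ) : ℝ) = Real.log 2 + L := by
      push_cast
      rw [Real.log_mul (by norm_num) (by positivity)]
    rw [e]
    have h7 : Real.log 2 + L ≤ L ^ 2 := by nlinarith
    have h9 : Real.log (Real.log 2 + L) ≤ 2 * Real.log L := by
      calc Real.log (Real.log 2 + L) ≤ Real.log (L ^ 2) := Real.log_le_log (by linarith) h7
        _ = _ := by rw [Real.log_pow]; push_cast; ring
    have h10 : 0 ≤ Real.log (Real.log 2 + L) := Real.log_nonneg (by linarith)
    have h11 : Real.log (Real.log 2 + L) ^ 2 ≤ 4 * Real.log L ^ 2 := by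
      calc _ ≤ (2 * Real.log L) ^ 2 := pow_le_pow_left₀ h10 h9 2
        _ = _ := by ring
    have hℓ : 1 ≤ Real.log L := by
      calc (1 : ℝ) = Real.log (Real.exp 1) := (Real.log_exp 1).symm
        _ ≤ Real.log L := Real.log_le_log (Real.exp_pos 1) (by linarith [Real.exp_one_lt_d9])
    have h13 : 2 * L ^ E = Real.exp (Real.log 2 + E * Real.log L) := by
      rw [Real.exp_add, Real.exp_log (by norm_num), mul_comm (E : ℝ), Real.exp_mul, Real.exp_log hL0, Real.rpow_natCast]
    rw [h13, ← Real.exp_add]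
    apply Real.exp_le_exp.2
    push_cast
    have hB : (0 : ℝ) ≤ B := Nat.cast_nonneg B
    have hE : (0 : ℝ) ≤ E := Nat.cast_nonneg E
    have h14 : Real.log L ≤ Real.log L ^ 2 := by nlinarith
    nlinarith [mul_le_mul_of_nonneg_left h11 hB, mul_le_mul_of_nonneg_left h14 hE]

/-- **Andrica's inequality in arithmetic progressions, on average over the moduli.** -/
theorem result (A C : ℕ) : ∃ B X₀ : ℕ, ∀ X : ℕ, X₀ ≤ X → ∀ Q : ℕ,
    (Q : ℝ) ≤ Real.sqrt X * Real.exp (-(B * Real.log (Real.log X) ^ 2)) →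
    (exceptions (1 / Real.log X ^ C) Q X : ℝ) ≤ Q ^ 2 * Real.sqrt X / Real.log X ^ A := by
  classical
  obtain ⟨B, X₁, hmain⟩ := Ch.t_R28 12 (2 * C + 2 * A + 4) 1 (by norm_num)
  obtain ⟨X₂, hlarge⟩ := large (2 * C + A + 1) B
  refine ⟨4 * B + (2 * C + A + 1) + 1, max (max X₁ X₂) 8, fun X hX Q hQ => ?_⟩
  have hX1 : X₁ ≤ X := (le_max_left _ _).trans ((le_max_left _ _).trans hX)
  obtain ⟨hL64, hLX, hpow, hexp⟩ := hlarge X ((le_max_right _ _).trans ((le_max_left _ _).trans hX))
  have hX8 : 8 ≤ X := (le_max_right _ _).trans hX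
  have hX0 : (0 : ℝ) < X := by exact_mod_cast (by omega : 0 < X)
  set L := Real.log X with hL
  set E := 2 * C + A + 1 with hE
  set W := Real.sqrt X with hW
  have hL0 : 0 < L := by linarith
  have hW0 : 0 < W := Real.sqrt_pos.2 hX0
  have hWW : W * W = X := Real.mul_self_sqrt hX0.le
  have hone : ∀ n : ℕ, 1 ≤ L ^ n := fun n => one_le_pow₀ (by linarith)
  have hpowle : ∀ {a b : ℕ}, a ≤ b → L ^ a ≤ L ^ b := fun h => pow_le_pow_right₀ (by linarith) h
  rcases Nat.eq_zero_or_pos Q with hQ0 | hQ0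
  · subst hQ0
    unfold exceptions
    simp
  have hQ0' : (0 : ℝ) < Q := by exact_mod_cast hQ0
  -- the windows
  obtain ⟨K, hK1, hK2⟩ : ∃ K : ℕ, W / (2 * L ^ E) ≤ K ∧ (K : ℝ) ≤ W / L ^ E := by
    refine ⟨⌊W / L ^ E⌋₊, ?_, Nat.floor_le (by positivity)⟩
    have h1 := Nat.lt_floor_add_one (W / L ^ E)
    have h2 : 4 ≤ W / L ^ E := by
      rw [le_div_iff₀ (by positivity)]
      exact hLX
    have h3 : W / (2 * L ^ E) = W / L ^ E / 2 := by
      field_simp
    rw [h3]
    linarith
  have hK2' : 2 ≤ (K : ℝ) := by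
    refine le_trans ?_ hK1
    rw [le_div_iff₀ (by positivity)]
    linarith
  have hKpos : 0 < K := by
    have : (0 : ℝ) < K := by linarith
    exact_mod_cast this
  have hK0 : (0 : ℝ) < K := by linarith
  have hKW : (K : ℝ) ≤ W := hK2.trans (div_le_self hW0.le (hone E))
  have hWX : W ≤ X := by
    have : 1 ≤ W := by linarith
    nlinarith
  have hKX : K ≤ X := by exact_mod_cast hKW.trans hWX
  set M := X / K + 1 with hM
  have hMK : X ≤ M * K := by
    have := Nat.lt_div_mul_add (a := X) hKpos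
    rw [hM, add_mul, one_mul]
    omega
  have hMK2 : M * K ≤ 2 * X := by
    have := Nat.div_mul_le_self X K
    rw [hM, add_mul, one_mul]
    omega
  have hMr : (M : ℝ) ≤ 4 * (W * L ^ E) := by
    have h1 : (M : ℝ) * K ≤ 2 * X := by exact_mod_cast hMK2
    have h2 : (M : ℝ) * (W / (2 * L ^ E)) ≤ 2 * X :=
      (mul_le_mul_of_nonneg_left hK1 (Nat.cast_nonneg _)).trans h1
    rw [mul_div_assoc', div_le_iff₀ (by positivity), ← hWW] at h2
    have h3 : (M : ℝ) * W ≤ (4 * (W * L ^ E)) * W := by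
      calc (M : ℝ) * W ≤ 2 * (W * W) * (2 * L ^ E) := h2
        _ = _ := by ring
    exact le_of_mul_le_mul_right h3 hW0
  set LX := Real.log ((2 * X : ℕ) : ℝ) with hLXdef
  have hLLX : L ≤ LX := by
    apply Real.log_le_log hX0
    push_cast
    linarith
  have hpowX : ∀ n : ℕ, L ^ n ≤ LX ^ n := fun n => pow_le_pow_left₀ hL0.le hLLX n
  have hexc := hmain (2 * X) (by omega) K ?_ (by omega) M (fun j => j * K) ⟨?_, ?_, ?_⟩
  rotate_left
  · have h1 : ((2 * X : ℕ) : ℝ) ^ ((1 / 3 : ℝ) + 1 / ((12 : ℕ) : ℝ)) = (2 * X : ℝ) ^ (5 / 12 : ℝ) := by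
      push_cast
      norm_num
    rw [h1]
    exact hpow.trans hK1
  · intro j hj
    rw [mem_Icc] at hj
    exact (Nat.mul_le_mul_right K hj.2).trans hMK2
  · intro x
    have h2 : ((Icc 1 M).filter (fun j => x ≤ j * K ∧ j * K < x + K)).card ≤ 1 := by
      rw [card_le_one]
      intro a ha b hb
      rw [mem_filter] at ha hb
      by_contra hab
      rcases Nat.lt_or_gt_of_ne hab with h | h
      · have : (a + 1) * K ≤ b * K := Nat.mul_le_mul_right K h
        rw [add_mul, one_mul] at this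
        omega
      · have : (b + 1) * K ≤ a * K := Nat.mul_le_mul_right K h
        rw [add_mul, one_mul] at this
        omega
    calc (((Icc 1 M).filter (fun j => x ≤ j * K ∧ j * K < x + K)).card : ℝ) ≤ 1 := by exact_mod_cast h2
      _ ≤ LX ^ 1 := (hone 1).trans (hpowX 1)
  · have h1 : (X : ℝ) ≤ M * K := by exact_mod_cast hMK
    have h2 : (M : ℝ) * K * 2 ≤ M * K * LX := mul_le_mul_of_nonneg_left (by linarith) (by positivity)
    have h3 : ((2 * X : ℕ) : ℝ) = 2 * X := by push_cast; ring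
    rw [pow_one, h3]
    rw [h3] at hLXdef
    rw [← hLXdef]
    linarith
  set A' := 2 * C + 2 * A + 4 with hA'
  -- the classes without primes
  set I : ℕ → ℝ := fun j => ∑ q ∈ Icc 1 Q, ∑ r ∈ range Q,
    if r < q ∧ r.Coprime q ∧ Thin.count q r (j * K) K = 0 then (1 : ℝ) else 0 with hI
  have hItriv : ∀ j, I j ≤ (Q : ℝ) ^ 2 := by
    intro j
    simp only [hI]
    calc (∑ q ∈ Icc 1 Q, ∑ r ∈ range Q,
        if r < q ∧ r.Coprime q ∧ Thin.count q r (j * K) K = 0 then (1 : ℝ) else 0) ≤ ∑ _q ∈ Icc 1 Q, ∑ _r ∈ range Q, (1 : ℝ) := by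
          apply sum_le_sum
          intro q _
          apply sum_le_sum
          intro r _
          split_ifs <;> norm_num
      _ = (Q : ℝ) ^ 2 := by
          simp [sq]
  have hI0 : ∀ j, 0 ≤ I j := by
    intro j
    simp only [hI]
    apply sum_nonneg
    intro q _
    apply sum_nonneg
    intro r _
    split_ifs <;> norm_num
  have hIgood : ∀ j ∈ Icc 1 M, Good28 A' B (2 * X) K (j * K) → I j ≤ 4 * L ^ 2 * (Q : ℝ) ^ 2 / L ^ A' := by
    intro j hj hg
    rw [mem_Icc] at hj
    have hjK1 : 1 ≤ j * K := Nat.mul_pos hj.1 hKpos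
    have hjK2 : j * K + K ≤ 3 * X := by
      have := (Nat.mul_le_mul_right K hj.2).trans hMK2
      omega
    have hQK : (Q : ℝ) ≤ K * Real.exp (-(B * Real.log LX ^ 2)) := by
      calc (Q : ℝ) ≤ W * Real.exp (-(((4 * B + (2 * C + A + 1) + 1 : ℕ) : ℝ) * Real.log L ^ 2)) := hQ
        _ ≤ W * (Real.exp (-(B * Real.log LX ^ 2)) / (2 * L ^ E)) := mul_le_mul_of_nonneg_left hexp hW0.le
        _ = W / (2 * L ^ E) * Real.exp (-(B * Real.log LX ^ 2)) := by ring
        _ ≤ _ := mul_le_mul_of_nonneg_right hK1 (Real.exp_pos _).le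
    have h1 := Thin.good_classes hg Q hQK (fun _ _ => K) (fun _ _ => le_rfl)
    have h2 : I j * (Thin.logSum (j * K) K / Q) ^ 2 ≤ (K : ℝ) ^ 2 / LX ^ A' := by
      refine le_trans ?_ h1
      simp only [hI]
      rw [sum_mul]
      apply sum_le_sum
      intro q hq
      exact one_modulus hq
    have h3 : (K : ℝ) / (2 * L) ≤ Thin.logSum (j * K) K := by
      apply logSum_ge hjK1
      calc Real.log ((j * K + K : ℕ) : ℝ) ≤ Real.log (3 * (X : ℝ)) := by
            apply Real.log_le_log
            · exact_mod_cast (by omega : 0 < j * K + K)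
            · exact_mod_cast hjK2
        _ = Real.log 3 + L := Real.log_mul (by norm_num) (by positivity)
        _ ≤ 2 * L := by
            have : Real.log 3 ≤ 3 - 1 := Real.log_le_sub_one_of_pos (by norm_num)
            linarith
    have h4 : I j * ((K : ℝ) / (2 * L) / Q) ^ 2 ≤ (K : ℝ) ^ 2 / L ^ A' := by
      calc I j * ((K : ℝ) / (2 * L) / Q) ^ 2 ≤ I j * (Thin.logSum (j * K) K / Q) ^ 2 := by
            apply mul_le_mul_of_nonneg_left _ (hI0 j)
            apply pow_le_pow_left₀ (by positivity)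
            exact div_le_div_of_nonneg_right h3 hQ0'.le
        _ ≤ (K : ℝ) ^ 2 / LX ^ A' := h2
        _ ≤ (K : ℝ) ^ 2 / L ^ A' := div_le_div_of_nonneg_left (by positivity) (by positivity) (hpowX _)
    have h5 : ((K : ℝ) / (2 * L) / Q) ^ 2 = (K : ℝ) ^ 2 / (4 * L ^ 2 * (Q : ℝ) ^ 2) := by
      field_simp
      ring
    rw [h5] at h4
    have h6 : I j * ((K : ℝ) ^ 2 / (4 * L ^ 2 * (Q : ℝ) ^ 2)) = (I j / (4 * L ^ 2 * (Q : ℝ) ^ 2)) * (K : ℝ) ^ 2 := by ring
    have h7 : (K : ℝ) ^ 2 / L ^ A' = (1 / L ^ A') * (K : ℝ) ^ 2 := by ring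
    rw [h6, h7] at h4
    have h8 := le_of_mul_le_mul_right h4 (by positivity)
    rw [div_le_iff₀ (by positivity)] at h8
    calc I j ≤ 1 / L ^ A' * (4 * L ^ 2 * (Q : ℝ) ^ 2) := h8
      _ = _ := by ring
  have hIsum : ∑ j ∈ Icc 1 M, I j ≤ (1 / 2) * (Q ^ 2 * W / L ^ A) := by
    have h1 : ∑ j ∈ Icc 1 M, I j ≤ M * (4 * L ^ 2 * (Q : ℝ) ^ 2 / L ^ A') + M / L ^ A' * (Q : ℝ) ^ 2 := by
      rw [← sum_filter_add_sum_filter_not (Icc 1 M) (fun j => Good28 A' B (2 * X) K (j * K))]
      apply add_le_add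
      · calc ∑ j ∈ (Icc 1 M).filter (fun j => Good28 A' B (2 * X) K (j * K)), I j ≤
              ∑ _j ∈ (Icc 1 M).filter (fun j => Good28 A' B (2 * X) K (j * K)), 4 * L ^ 2 * (Q : ℝ) ^ 2 / L ^ A' := by
              apply sum_le_sum
              intro j hj
              rw [mem_filter] at hj
              exact hIgood j hj.1 hj.2
          _ ≤ _ := by
              rw [sum_const, nsmul_eq_mul]
              apply mul_le_mul_of_nonneg_right _ (by positivity)
              have := card_filter_le (Icc 1 M) (fun j => Good28 A' B (2 * X) K (j * K))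
              rw [Nat.card_Icc, Nat.add_sub_cancel] at this
              exact_mod_cast this
      · calc ∑ j ∈ (Icc 1 M).filter (fun j => ¬ Good28 A' B (2 * X) K (j * K)), I j ≤
              ∑ _j ∈ (Icc 1 M).filter (fun j => ¬ Good28 A' B (2 * X) K (j * K)), (Q : ℝ) ^ 2 :=
              sum_le_sum fun j _ => hItriv j
          _ ≤ _ := by
              rw [sum_const, nsmul_eq_mul]
              apply mul_le_mul_of_nonneg_right _ (by positivity)
              refine hexc.trans ?_
              exact div_le_div_of_nonneg_left (Nat.cast_nonneg _) (by positivity) (hpowX _)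
    refine h1.trans ?_
    have h2 : (M : ℝ) * (4 * L ^ 2 * (Q : ℝ) ^ 2 / L ^ A') + M / L ^ A' * (Q : ℝ) ^ 2 ≤ M * (5 * L ^ 2 * (Q : ℝ) ^ 2 / L ^ A') := by
      have h3 : (M : ℝ) / L ^ A' * (Q : ℝ) ^ 2 ≤ M * (L ^ 2 * (Q : ℝ) ^ 2 / L ^ A') := by
        calc (M : ℝ) / L ^ A' * (Q : ℝ) ^ 2 = M * (1 * (Q : ℝ) ^ 2 / L ^ A') := by ring
          _ ≤ _ := by
            apply mul_le_mul_of_nonneg_left _ (Nat.cast_nonneg _)
            apply div_le_div_of_nonneg_right _ (by positivity)
            exact mul_le_mul_of_nonneg_right (hone 2) (by positivity)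
      calc _ ≤ (M : ℝ) * (4 * L ^ 2 * (Q : ℝ) ^ 2 / L ^ A') + M * (L ^ 2 * (Q : ℝ) ^ 2 / L ^ A') := by linarith
        _ = _ := by ring
    refine h2.trans ?_
    calc (M : ℝ) * (5 * L ^ 2 * (Q : ℝ) ^ 2 / L ^ A') ≤ (4 * (W * L ^ E)) * (5 * L ^ 2 * (Q : ℝ) ^ 2 / L ^ A') :=
          mul_le_mul_of_nonneg_right hMr (by positivity)
      _ = 20 / L * (Q ^ 2 * W / L ^ A) := by
          have h4 : L ^ A' = L ^ E * L ^ 2 * L ^ A * L := by
            rw [hA', hE, ← pow_add, ← pow_add, ← pow_succ]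
            congr 1
            ring
          rw [h4]
          field_simp
          ring
      _ ≤ (1 / 2) * (Q ^ 2 * W / L ^ A) := by
          apply mul_le_mul_of_nonneg_right _ (by positivity)
          rw [div_le_iff₀ hL0]
          linarith
  -- the pairs with large primes
  set δ : ℝ := 1 / L ^ C with hδ
  have hδ0 : 0 < δ := by positivity
  set D := C + A + 1 with hD
  have hKδ : (K : ℝ) ≤ δ * (W / L ^ D) := by
    refine hK2.trans (le_of_eq ?_)
    rw [hδ, hE, hD, show 2 * C + A + 1 = C + (C + A + 1) by ring, pow_add]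
    field_simp
  set V := (Icc 1 Q ×ˢ Icc 1 X).filter (fun v => v.2.Prime ∧ ¬ v.2 ∣ v.1 ∧ Fails δ v.1 v.2) with hV
  set V₁ := V.filter (fun v => W / L ^ D < Real.sqrt (v.2 : ℝ)) with hV₁
  set V₂ := V.filter (fun v => ¬ W / L ^ D < Real.sqrt (v.2 : ℝ)) with hV₂
  have hcop : ∀ q p : ℕ, p.Prime → ¬ p ∣ q → (p % q).Coprime q := by
    intro q p hp hpq
    have h1 : Nat.Coprime p q := (Nat.Prime.coprime_iff_not_dvd hp).2 hpq
    have h2 : Nat.gcd q p = Nat.gcd (p % q) q := Nat.gcd_rec q p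
    unfold Nat.Coprime
    rw [← h2, Nat.gcd_comm]
    exact h1
  have hcard1 : (V₁.card : ℝ) ≤ ∑ j ∈ Icc 1 M, I j := by
    have h1 : ∑ j ∈ Icc 1 M, I j = (((Icc 1 M ×ˢ (Icc 1 Q ×ˢ range Q)).filter (fun w =>
        w.2.2 < w.2.1 ∧ w.2.2.Coprime w.2.1 ∧ Thin.count w.2.1 w.2.2 (w.1 * K) K = 0)).card : ℝ) := by
      rw [card_filter, Nat.cast_sum, sum_product]
      apply sum_congr rfl
      intro j _
      simp only [hI]
      rw [sum_product]
      apply sum_congr rfl
      intro q _
      apply sum_congr rfl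
      intro r _
      push_cast
      rfl
    rw [h1]
    have h2 : V₁.card ≤ ((Icc 1 M ×ˢ (Icc 1 Q ×ˢ range Q)).filter (fun w =>
        w.2.2 < w.2.1 ∧ w.2.2.Coprime w.2.1 ∧ Thin.count w.2.1 w.2.2 (w.1 * K) K = 0)).card := by
      have hjfacts : ∀ p : ℕ, p ≤ (p + K - 1) / K * K ∧ (p + K - 1) / K * K ≤ p + K - 1 := by
        intro p
        have h3 := Nat.div_mul_le_self (p + K - 1) K
        have h4 := Nat.lt_div_mul_add (a := p + K - 1) hKpos
        exact ⟨by omega, h3⟩
      apply card_le_card_of_injOn (fun v : ℕ × ℕ => ((v.2 + K - 1) / K, (v.1, v.2 % v.1)))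
      · intro v hv
        rw [mem_coe, hV₁, mem_filter, hV, mem_filter, mem_product, mem_Icc, mem_Icc] at hv
        obtain ⟨⟨⟨⟨h5, h6⟩, h7, h8⟩, h9, h10, h11⟩, h12⟩ := hv
        obtain ⟨h13, h14⟩ := hjfacts v.2
        rw [mem_coe, mem_filter, mem_product, mem_product, mem_Icc, mem_Icc, mem_range]
        have h15 : v.2 % v.1 < v.1 := Nat.mod_lt _ h5
        refine ⟨⟨⟨?_, ?_⟩, ⟨h5, h6⟩, lt_of_lt_of_le h15 h6⟩, h15, hcop _ _ h9 h10, ?_⟩
        · by_contra h16
          have h17 : (v.2 + K - 1) / K = 0 := Nat.lt_one_iff.1 (not_le.1 h16)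
          rw [h17, zero_mul] at h13
          omega
        · calc (v.2 + K - 1) / K ≤ (X + K) / K := Nat.div_le_div_right (by omega)
            _ = M := by rw [Nat.add_div_right _ hKpos]
        · dsimp only
          unfold Thin.count
          rw [card_eq_zero, filter_eq_empty_iff]
          intro s hs hs2
          rw [mem_Ioc] at hs
          have h18 := near hδ0 h12 hKδ h11 hs2.1 hs2.2 (by omega : v.2 < s)
          omega
      · intro v hv w hw hvw
        rw [mem_coe, hV₁, mem_filter, hV, mem_filter, mem_product, mem_Icc, mem_Icc] at hv hw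
        rw [Prod.mk.injEq, Prod.mk.injEq] at hvw
        obtain ⟨e1, e2, e3⟩ := hvw
        have h13 := hjfacts v.2
        have h14 := hjfacts w.2
        rw [e1] at h13
        apply Prod.ext e2
        by_contra hne
        rcases Nat.lt_or_gt_of_ne hne with h | h
        · have h15 := near hδ0 hv.2 hKδ hv.1.2.2.2 hw.1.2.1 (by rw [e3, e2]) h
          omega
        · have h15 := near hδ0 hw.2 hKδ hw.1.2.2.2 hv.1.2.1 (by rw [← e3, e2]) h
          omega
    exact_mod_cast h2
  -- the pairs with small primes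
  have hcard2 : (V₂.card : ℝ) ≤ (1 / 2) * (Q ^ 2 * W / L ^ A) := by
    set H := ⌊W / L ^ D / δ⌋₊ with hH
    have h2 : V₂.card ≤ (Icc 1 Q ×ˢ (range Q ×ˢ range (H + 1))).card := by
      apply card_le_card_of_injOn (fun v : ℕ × ℕ => (v.1, (v.2 % v.1, ⌊Real.sqrt (v.2 : ℝ) / δ⌋₊)))
      · intro v hv
        rw [mem_coe, hV₂, mem_filter, hV, mem_filter, mem_product, mem_Icc, mem_Icc] at hv
        obtain ⟨⟨⟨⟨h5, h6⟩, h7, h8⟩, h9, h10, h11⟩, h12⟩ := hv
        rw [mem_coe, mem_product, mem_product, mem_Icc, mem_range, mem_range]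
        have h15 : v.2 % v.1 < v.1 := Nat.mod_lt _ h5
        refine ⟨⟨h5, h6⟩, lt_of_lt_of_le h15 h6, ?_⟩
        apply Nat.lt_succ_of_le
        apply Nat.floor_le_floor
        exact div_le_div_of_nonneg_right (not_lt.1 h12) hδ0.le
      · intro v hv w hw hvw
        rw [mem_coe, hV₂, mem_filter, hV, mem_filter, mem_product, mem_Icc, mem_Icc] at hv hw
        rw [Prod.mk.injEq, Prod.mk.injEq] at hvw
        obtain ⟨e2, e3, e4⟩ := hvw
        apply Prod.ext e2
        by_contra hne
        rcases Nat.lt_or_gt_of_ne hne with h | h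
        · have h15 := separated hδ0 hv.1.2.2.2 hw.1.2.1 (by rw [e3, e2]) h
          omega
        · have h15 := separated hδ0 hw.1.2.2.2 hv.1.2.1 (by rw [← e3, e2]) h
          omega
    have h3 : (V₂.card : ℝ) ≤ Q * (Q * ((H : ℝ) + 1)) := by
      rw [card_product, card_product, Nat.card_Icc, card_range, card_range, Nat.add_sub_cancel] at h2
      exact_mod_cast h2
    have h4 : W / L ^ D / δ = W / L ^ (A + 1) := by
      rw [hδ, hD, show C + A + 1 = C + (A + 1) by ring, pow_add]
      field_simp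
    have h5 : (H : ℝ) ≤ W / L ^ (A + 1) := by
      rw [← h4]
      exact Nat.floor_le (by positivity)
    have h6 : 1 ≤ W / L ^ (A + 1) := by
      rw [le_div_iff₀ (by positivity), one_mul]
      have h7 : L ^ (A + 1) ≤ L ^ E := hpowle (by omega)
      have h8 := hone E
      linarith
    calc (V₂.card : ℝ) ≤ Q * (Q * ((H : ℝ) + 1)) := h3
      _ ≤ Q * (Q * (2 * (W / L ^ (A + 1)))) := by
          apply mul_le_mul_of_nonneg_left _ hQ0'.le
          apply mul_le_mul_of_nonneg_left _ hQ0'.le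
          linarith
      _ = 2 / L * (Q ^ 2 * W / L ^ A) := by
          rw [pow_succ]
          field_simp
      _ ≤ (1 / 2) * (Q ^ 2 * W / L ^ A) := by
          apply mul_le_mul_of_nonneg_right _ (by positivity)
          rw [div_le_iff₀ hL0]
          linarith
  have hsplit : V.card = V₁.card + V₂.card := (card_filter_add_card_filter_not _).symm
  have hfin : (exceptions δ Q X : ℝ) = V₁.card + V₂.card := by
    unfold exceptions
    rw [← Nat.cast_add, ← hsplit]
  rw [hfin]
  linarith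

end Pool.Agent.Results.MP_82fd4a_nt.AverageOverProgressions
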